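import Pool.Agent.Helper24.Cotype.Final

/-!
# MP_28cf54_an, Q1: Gaussian convex hulls have cotype 2

For `n ≤ N ≤ K' n`, with probability at least `1 - 2 exp (-n)`, the Minkowski functional of
`P_{N,n} = conv {± X_i}` has cotype `2`, and hence cotype `q` for every `q ≥ 2` (in particular
cotype `2 + ε` for every `ε > 0`), with one constant `C` that depends on `K'` only.
-/

set_option autoImplicit false

open MeasureTheory ProbabilityTheory

namespace Pool.Agent.Results.MP_28cf54_an.CotypeTwo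

/-- The symmetric convex hull `conv {± x_i}` of finitely many vectors of `ℝⁿ`. -/
def hull {n N : ℕ} (x : Fin N → EuclideanSpace ℝ (Fin n)) : Set (EuclideanSpace ℝ (Fin n)) :=
  convexHull ℝ (Set.range x ∪ Set.range (fun i => - x i))

/-- `p` has cotype `q` with constant `C`: for all `k` and `y₁, …, y_k`,
`C^{-q} ∑ p(y_i)^q ≤ 𝔼_σ p(∑ σ_i y_i)^q`, with `σ` uniform on `{-1,1}^k`. -/
def HasCotype {E : Type*} [AddCommGroup E] [Module ℝ E] (p : E → ℝ) (q C : ℝ) : Prop :=
  ∀ (k : ℕ) (y : Fin k → E),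
    C ^ (-q) * ∑ i, p (y i) ^ q ≤
      (1 / 2 ^ k) * ∑ σ : Fin k → ℤˣ, p (∑ i, ((σ i : ℤ) : ℝ) • y i) ^ q

/-- For every `K' ≥ 1` there is `C` such that, for all `n ≥ 1` and `n ≤ N ≤ K' n` and all
independent standard Gaussian vectors `X_1, …, X_N` of `ℝⁿ`, outside an event of (outer)
probability at most `2 exp (-n)` the Minkowski functional of `conv {± X_i}` has cotype `q` with
constant `C` for every real `q ≥ 2`. -/
theorem result (K' : ℝ) (hK' : 1 ≤ K') : ∃ C : ℝ, 0 < C ∧
    ∀ n N : ℕ, 0 < n → n ≤ N → (N : ℝ) ≤ K' * n →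
      ∀ {Ω : Type*} [MeasurableSpace Ω] (P : Measure Ω) [IsProbabilityMeasure P]
        (X : Fin N → Ω → EuclideanSpace ℝ (Fin n)),
        (∀ i, HasLaw (X i) (stdGaussian (EuclideanSpace ℝ (Fin n))) P) → iIndepFun X P →
        P {ω | ¬ ∀ q : ℝ, 2 ≤ q → HasCotype (gauge (hull fun i => X i ω)) q C} ≤
          ENNReal.ofReal (2 * Real.exp (-n)) :=
  Pool.Agent.Helper24.Final.main hK'

end Pool.Agent.Results.MP_28cf54_an.CotypeTwo
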